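import Mathlib
import Pool.Agent.RevMaps.Upper
import Pool.Agent.RevMaps.Lower
import Pool.Agent.MOB.Hnd

namespace Pool.Agent.Results.MP_2a1f98_al.OffIdentity

open Pool.Agent.RevMaps

/-- `𝒢_n`: the formal maps of `(ℂⁿ, 0)` (`n`-tuples of power series in `n` variables over `ℂ`
without constant term) whose linear part is invertible. -/
def G (n : ℕ) : Type := {f : FMap n // (lin f).det ≠ 0}

/-- the underlying formal map -/
def G.val {n : ℕ} (f : G n) : FMap n := Subtype.val f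

theorem G.ext {n : ℕ} {f g : G n} (h : f.val = g.val) : f = g := Subtype.ext h

theorem G.isUnit {n : ℕ} (f : G n) : IsUnit f.val := (isUnit_iff_det _).mpr f.property

/-- composition -/
noncomputable instance (n : ℕ) : Mul (G n) :=
  ⟨fun f g => ⟨f.val * g.val, (isUnit_iff_det _).mp (f.isUnit.mul g.isUnit)⟩⟩

/-- identity -/
noncomputable instance (n : ℕ) : One (G n) := ⟨⟨1, (isUnit_iff_det _).mp isUnit_one⟩⟩

/-- compositional inverse -/
noncomputable instance (n : ℕ) : Inv (G n) :=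
  ⟨fun f => ⟨((f.isUnit.unit⁻¹ : (FMap n)ˣ) : FMap n),
    (isUnit_iff_det _).mp (f.isUnit.unit⁻¹ : (FMap n)ˣ).isUnit⟩⟩

theorem G.val_mul {n : ℕ} (f g : G n) : (f * g).val = f.val * g.val := rfl

theorem G.val_one {n : ℕ} : (1 : G n).val = 1 := rfl

/-- `𝒢_n` is a group under composition. -/
noncomputable instance (n : ℕ) : Group (G n) where
  mul_assoc f g h := G.ext (mul_assoc f.val g.val h.val)
  one_mul f := G.ext (one_mul f.val)
  mul_one f := G.ext (mul_one f.val)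
  inv_mul_cancel f := G.ext (f.isUnit.val_inv_mul)

/-- involutions (including the identity) -/
def I (n : ℕ) : Set (G n) := {f | f * f = 1}

/-- reversible elements -/
def R (n : ℕ) : Set (G n) := {f | ∃ h : G n, h * f * h⁻¹ = f⁻¹}

/-- `S^j`: compositions of `j` elements of `S` -/
def setPow {n : ℕ} (S : Set (G n)) (j : ℕ) : Set (G n) :=
  {x | ∃ l : List (G n), l.length = j ∧ (∀ s ∈ l, s ∈ S) ∧ l.prod = x}

/-- `R^∞`, the union of the `R^m`, `m ≥ 1` -/
def RInf (n : ℕ) : Set (G n) := {x | ∃ m, 1 ≤ m ∧ x ∈ setPow (R n) m}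

/-- the least `k ≥ 1` with `I^k = R^∞` -/
noncomputable def kmin (n : ℕ) : ℕ := sInf {k | 1 ≤ k ∧ setPow (I n) k = RInf n}

/-- the least `m ≥ 1` with `R^m = R^∞` -/
noncomputable def mmin (n : ℕ) : ℕ := sInf {m | 1 ≤ m ∧ setPow (R n) m = RInf n}

variable {n : ℕ}

theorem I_sub_R : I n ⊆ R n := by
  intro f hf
  refine ⟨1, ?_⟩
  rw [one_mul, inv_one, mul_one, eq_inv_iff_mul_eq_one]
  exact hf

theorem I_sq_sub_R {σ τ : G n} (hσ : σ ∈ I n) (hτ : τ ∈ I n) : σ * τ ∈ R n := by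
  have h1 : σ * σ = 1 := hσ
  have h2 : τ * τ = 1 := hτ
  refine ⟨σ, ?_⟩
  rw [eq_inv_iff_mul_eq_one]
  have h3 : σ⁻¹ = σ := by rw [inv_eq_iff_mul_eq_one]; exact h1
  rw [h3]
  calc σ * (σ * τ) * σ * (σ * τ) = (σ * σ) * (τ * (σ * σ) * τ) := by simp only [mul_assoc]
    _ = 1 := by rw [h1, mul_one, h2, mul_one]

theorem det_of_R {f : G n} (hf : f ∈ R n) : (lin f.val).det ^ 2 = 1 := by
  obtain ⟨h, hh⟩ := hf
  have h1 : h * f = f⁻¹ * h := by rw [← hh]; group
  have h2 : f * (h * f) = h := by rw [h1]; group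
  have h3 : f.val * (h.val * f.val) = h.val := by
    rw [← G.val_mul, ← G.val_mul, h2]
  have h4 := congrArg (fun g => (lin g).det) h3
  simp only [lin_mul, Matrix.det_mul] at h4
  have h5 : (lin h.val).det ≠ 0 := h.property
  have h6 : (lin h.val).det * ((lin f.val).det ^ 2) = (lin h.val).det * 1 := by
    rw [mul_one]
    linear_combination h4
  exact mul_left_cancel₀ h5 h6

theorem det_of_RInf {f : G n} (hf : f ∈ RInf n) : (lin f.val).det ^ 2 = 1 := by
  obtain ⟨m, _, l, _, hl, rfl⟩ := hf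
  clear * - hl
  induction l with
  | nil =>
    rw [List.prod_nil, G.val_one, lin_one, Matrix.det_one, one_pow]
  | cons a l ih =>
    rw [List.prod_cons, G.val_mul, lin_mul, Matrix.det_mul, mul_pow,
      det_of_R (hl a (by simp)), one_mul]
    exact ih (fun s hs => hl s (by simp [hs]))

/-- element of `𝒢_n` from an involutive formal map -/
def toUnit (τ : FMap n) (h : τ * τ = 1) : G n :=
  ⟨τ, (isUnit_iff_det _).mp ⟨⟨τ, τ, h, h⟩, rfl⟩⟩

theorem toUnit_mem (τ : FMap n) (h : τ * τ = 1) : toUnit τ h ∈ I n := by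
  show toUnit τ h * toUnit τ h = 1
  apply G.ext
  exact h

theorem five (hn : 2 ≤ n) {f : G n} (hf : (lin f.val).det ^ 2 = 1) :
    ∃ t : Fin 5 → G n, (∀ k, t k ∈ I n) ∧ t 0 * t 1 * t 2 * t 3 * t 4 = f := by
  obtain ⟨τ, hτ, hp⟩ := Pool.Agent.MOB.five_all hn f.val hf
  refine ⟨fun k => toUnit (τ k) (hτ k), fun k => toUnit_mem _ _, ?_⟩
  apply G.ext
  exact hp

/-- the structural theorem -/
theorem four (hn : 2 ≤ n) {f : G n} (hf : (lin f.val).det ^ 2 = 1) (h1 : lin f.val ≠ 1) :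
    ∃ t : Fin 4 → G n, (∀ k, t k ∈ I n) ∧ t 0 * t 1 * t 2 * t 3 = f := by
  obtain ⟨τ, hτ, hp⟩ := Pool.Agent.MOB.struct_four hn f.val hf h1
  refine ⟨fun k => toUnit (τ k) (hτ k), fun k => toUnit_mem _ _, ?_⟩
  apply G.ext
  exact hp

theorem mem_I4 (hn : 2 ≤ n) {f : G n} (hf : (lin f.val).det ^ 2 = 1) (h1 : lin f.val ≠ 1) :
    f ∈ setPow (I n) 4 := by
  obtain ⟨t, ht, hp⟩ := four hn hf h1
  refine ⟨[t 0, t 1, t 2, t 3], rfl, ?_, ?_⟩
  · intro s hs
    simp only [List.mem_cons, List.not_mem_nil, or_false] at hs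
    rcases hs with rfl | rfl | rfl | rfl <;> exact ht _
  · rw [← hp]
    simp [mul_assoc]

theorem mem_R2 (hn : 2 ≤ n) {f : G n} (hf : (lin f.val).det ^ 2 = 1) (h1 : lin f.val ≠ 1) :
    f ∈ setPow (R n) 2 := by
  obtain ⟨t, ht, hp⟩ := four hn hf h1
  refine ⟨[t 0 * t 1, t 2 * t 3], rfl, ?_, ?_⟩
  · intro s hs
    simp only [List.mem_cons, List.not_mem_nil, or_false] at hs
    rcases hs with rfl | rfl <;> exact I_sq_sub_R (ht _) (ht _)
  · rw [← hp]
    simp [mul_assoc]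

theorem I5 (hn : 2 ≤ n) : setPow (I n) 5 = RInf n := by
  apply Set.Subset.antisymm
  · rintro x ⟨l, hl, hS, rfl⟩
    exact ⟨5, by norm_num, l, hl, fun s hs => I_sub_R (hS s hs), rfl⟩
  · intro x hx
    obtain ⟨t, ht, hp⟩ := five hn (det_of_RInf hx)
    refine ⟨[t 0, t 1, t 2, t 3, t 4], rfl, ?_, ?_⟩
    · intro s hs
      simp only [List.mem_cons, List.not_mem_nil, or_false] at hs
      rcases hs with rfl | rfl | rfl | rfl | rfl <;> exact ht _
    · rw [← hp]
      simp [mul_assoc]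

theorem R3 (hn : 2 ≤ n) : setPow (R n) 3 = RInf n := by
  apply Set.Subset.antisymm
  · rintro x ⟨l, hl, hS, rfl⟩
    exact ⟨3, by norm_num, l, hl, hS, rfl⟩
  · intro x hx
    obtain ⟨t, ht, hp⟩ := five hn (det_of_RInf hx)
    refine ⟨[t 0 * t 1, t 2 * t 3, t 4], rfl, ?_, ?_⟩
    · intro s hs
      simp only [List.mem_cons, List.not_mem_nil, or_false] at hs
      rcases hs with rfl | rfl | rfl
      · exact I_sq_sub_R (ht _) (ht _)
      · exact I_sq_sub_R (ht _) (ht _)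
      · exact I_sub_R (ht _)
    · rw [← hp]
      simp [mul_assoc]

theorem mem_RInf_of_det (hn : 2 ≤ n) {f : G n} (hf : (lin f.val).det ^ 2 = 1) :
    f ∈ RInf n := by
  obtain ⟨t, ht, hp⟩ := five hn hf
  rw [← I5 hn]
  refine ⟨[t 0, t 1, t 2, t 3, t 4], rfl, ?_, ?_⟩
  · intro s hs
    simp only [List.mem_cons, List.not_mem_nil, or_false] at hs
    rcases hs with rfl | rfl | rfl | rfl | rfl <;> exact ht _
  · rw [← hp]
    simp [mul_assoc]

theorem I_small (hn : 2 ≤ n) (k : ℕ) (hk : k ≤ 3) : setPow (I n) k ≠ RInf n := by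
  intro h
  have hunit : IsUnit (f0 (⟨0, by omega⟩ : Fin n)) :=
    isUnit_oneAdd (d := 3) (by norm_num) _ _ (OV_v0 _)
  obtain ⟨u, hu⟩ : ∃ u : G n, u.val = f0 (⟨0, by omega⟩ : Fin n) :=
    ⟨⟨_, (isUnit_iff_det _).mp hunit⟩, rfl⟩
  have hlin : lin u.val = 1 := by
    rw [hu]; exact lin_oneAdd (d := 3) (by norm_num) _ _ (OV_v0 _)
  have h1 : u ∈ RInf n := mem_RInf_of_det hn (by rw [hlin]; simp)
  rw [← h] at h1
  obtain ⟨l, hl, hS, hp⟩ := h1
  apply not_three (⟨0, by omega⟩ : Fin n)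
  -- pad with identities
  have hpad : ∃ a b c : G n, a ∈ I n ∧ b ∈ I n ∧ c ∈ I n ∧ a * b * c = u := by
    have h1I : (1 : G n) ∈ I n := by show (1 : G n) * 1 = 1; simp
    match l, hl with
    | [], _ => exact ⟨1, 1, 1, h1I, h1I, h1I, by rw [← hp]; simp⟩
    | [a], _ => exact ⟨a, 1, 1, hS a (by simp), h1I, h1I, by rw [← hp]; simp⟩
    | [a, b], _ => exact ⟨a, b, 1, hS a (by simp), hS b (by simp), h1I, by rw [← hp]; simp⟩
    | [a, b, c], _ => exact ⟨a, b, c, hS a (by simp), hS b (by simp), hS c (by simp),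
        by rw [← hp]; simp [mul_assoc]⟩
    | a :: b :: c :: d :: l', hl => simp at hl; omega
  obtain ⟨a, b, c, ha, hb, hc, habc⟩ := hpad
  refine ⟨![a.val, b.val, c.val], ?_, ?_⟩
  · intro k
    fin_cases k
    · exact congrArg G.val ha
    · exact congrArg G.val hb
    · exact congrArg G.val hc
  · show a.val * b.val * c.val = _
    rw [← G.val_mul, ← G.val_mul, habc, hu]

theorem R_small (hn : 2 ≤ n) : setPow (R n) 1 ≠ RInf n := by
  intro h
  set d : Fin n → ℂ := fun i => if (i : ℕ) = 0 then 2 else if (i : ℕ) = 1 then -(1 / 2) else 1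
    with hd
  set i0 : Fin n := ⟨0, by omega⟩ with hi0
  set i1 : Fin n := ⟨1, by omega⟩ with hi1
  have hd0 : ∀ i, d i ≠ 0 := by
    intro i
    simp only [hd]
    split_ifs <;> norm_num
  have hdet : (Matrix.diagonal d).det = -1 := by
    rw [Matrix.det_diagonal]
    have h1 : ∀ i, d i = (if i = i0 then 2 else 1) * (if i = i1 then -(1 / 2) else 1) := by
      intro i
      simp only [hd, hi0, hi1, Fin.ext_iff]
      by_cases h0 : (i : ℕ) = 0
      · simp [h0]
      · by_cases h1 : (i : ℕ) = 1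
        · simp [h1]
        · simp [h0, h1]
    rw [Finset.prod_congr rfl (fun i _ => h1 i), Finset.prod_mul_distrib, Finset.prod_ite_eq',
      Finset.prod_ite_eq']
    norm_num
  have hunit : IsUnit (linMap (Matrix.diagonal d)) := by
    rw [isUnit_iff_det, lin_linMap, hdet]; norm_num
  obtain ⟨u, hu⟩ : ∃ u : G n, u.val = linMap (Matrix.diagonal d) :=
    ⟨⟨_, (isUnit_iff_det _).mp hunit⟩, rfl⟩
  have h1 : u ∈ RInf n := mem_RInf_of_det hn (by rw [hu, lin_linMap, hdet]; norm_num)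
  rw [← h] at h1
  obtain ⟨l, hl, hS, hp⟩ := h1
  obtain ⟨a, rfl⟩ := List.length_eq_one_iff.mp hl
  have hau : a = u := by simpa using hp
  obtain ⟨g, hg⟩ := hS a (by simp)
  rw [hau] at hg
  have h2 : lin g.val * Matrix.diagonal d * lin (g⁻¹).val =
      Matrix.diagonal (fun i => (d i)⁻¹) := by
    have h3 : g.val * u.val * (g⁻¹).val = (u⁻¹).val := by
      rw [← G.val_mul, ← G.val_mul, hg]
    have h4 := congrArg lin h3
    rw [lin_mul, lin_mul, hu, lin_linMap] at h4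
    rw [h4]
    have h5 : lin (u⁻¹).val * Matrix.diagonal d = 1 := by
      rw [← lin_linMap (Matrix.diagonal d), ← hu, ← lin_mul, ← G.val_mul, inv_mul_cancel, G.val_one, lin_one]
    have h6 : Matrix.diagonal d * Matrix.diagonal (fun i => (d i)⁻¹) = 1 := by
      rw [Matrix.diagonal_mul_diagonal]
      rw [show (fun i => d i * (d i)⁻¹) = fun _ => (1 : ℂ) from
        funext fun i => mul_inv_cancel₀ (hd0 i)]
      simp
    calc lin (u⁻¹).val = lin (u⁻¹).val *
          (Matrix.diagonal d * Matrix.diagonal (fun i => (d i)⁻¹)) := by rw [h6, mul_one]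
      _ = _ := by rw [← mul_assoc, h5, one_mul]
  have h3 := congrArg Matrix.trace h2
  rw [Matrix.trace_mul_cycle, ← lin_mul, ← G.val_mul, inv_mul_cancel, G.val_one, lin_one, one_mul, Matrix.trace_diagonal,
    Matrix.trace_diagonal] at h3
  have h4 : ∑ i, (d i - (d i)⁻¹) = 3 := by
    have h1 : ∀ i, d i - (d i)⁻¹ = (if i = i0 then 3 / 2 else 0) + (if i = i1 then 3 / 2 else 0) := by
      intro i
      simp only [hd, hi0, hi1, Fin.ext_iff]
      by_cases h0 : (i : ℕ) = 0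
      · simp [h0]; norm_num
      · by_cases h1 : (i : ℕ) = 1
        · simp [h1]; norm_num
        · simp [h0, h1]
    rw [Finset.sum_congr rfl (fun i _ => h1 i), Finset.sum_add_distrib, Finset.sum_ite_eq',
      Finset.sum_ite_eq']
    norm_num
  rw [Finset.sum_sub_distrib, h3, sub_self] at h4
  norm_num at h4

/-- **Main theorem.** Let `n ≥ 2`. Every `f` in `𝒢_n` with `det (lin f)^2 = 1` and linear part other
than the identity is a composition of four involutions and of two reversible elements. Hence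
`4 ≤ k(n) ≤ 5`, `2 ≤ m(n) ≤ 3`, and `k(n) = 4` (`m(n) = 2`) if and only if every `f` with identity
linear part is a composition of four involutions (of two reversible elements). -/
theorem result (n : ℕ) (hn : 2 ≤ n) :
    (∀ f : G n, (lin f.val).det ^ 2 = 1 → lin f.val ≠ 1 →
      f ∈ setPow (I n) 4 ∧ f ∈ setPow (R n) 2) ∧
    (4 ≤ kmin n ∧ kmin n ≤ 5) ∧ (2 ≤ mmin n ∧ mmin n ≤ 3) ∧
    (kmin n = 4 ↔ ∀ f : G n, lin f.val = 1 → f ∈ setPow (I n) 4) ∧
    (mmin n = 2 ↔ ∀ f : G n, lin f.val = 1 → f ∈ setPow (R n) 2) := by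
  have hI : 5 ∈ {k | 1 ≤ k ∧ setPow (I n) k = RInf n} := ⟨by norm_num, I5 hn⟩
  have hR : 3 ∈ {m | 1 ≤ m ∧ setPow (R n) m = RInf n} := ⟨by norm_num, R3 hn⟩
  have hk4 : 4 ≤ kmin n := by
    apply le_csInf ⟨5, hI⟩
    rintro k ⟨_, hk⟩
    by_contra hlt
    exact I_small hn k (by omega) hk
  have hm2 : 2 ≤ mmin n := by
    apply le_csInf ⟨3, hR⟩
    rintro m ⟨hm1, hm⟩
    by_contra hlt
    have : m = 1 := by omega
    subst this
    exact R_small hn hm
  have hdet1 : ∀ f : G n, lin f.val = 1 → (lin f.val).det ^ 2 = 1 := by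
    intro f hf
    rw [hf, Matrix.det_one, one_pow]
  refine ⟨fun f hf h1 => ⟨mem_I4 hn hf h1, mem_R2 hn hf h1⟩, ⟨hk4, Nat.sInf_le hI⟩,
    ⟨hm2, Nat.sInf_le hR⟩, ⟨?_, ?_⟩, ⟨?_, ?_⟩⟩
  · intro hk f hf
    have h := Nat.sInf_mem (⟨5, hI⟩ : {k | 1 ≤ k ∧ setPow (I n) k = RInf n}.Nonempty)
    have h2 : setPow (I n) (kmin n) = RInf n := h.2
    rw [hk] at h2
    rw [h2]
    exact mem_RInf_of_det hn (hdet1 f hf)
  · intro h
    refine le_antisymm (Nat.sInf_le ⟨by norm_num, Set.Subset.antisymm ?_ ?_⟩) hk4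
    · rintro x ⟨l, hl, hS, rfl⟩
      exact ⟨4, by norm_num, l, hl, fun s hs => I_sub_R (hS s hs), rfl⟩
    · intro x hx
      by_cases h1 : lin x.val = 1
      · exact h x h1
      · exact mem_I4 hn (det_of_RInf hx) h1
  · intro hm f hf
    have h := Nat.sInf_mem (⟨3, hR⟩ : {m | 1 ≤ m ∧ setPow (R n) m = RInf n}.Nonempty)
    have h2 : setPow (R n) (mmin n) = RInf n := h.2
    rw [hm] at h2
    rw [h2]
    exact mem_RInf_of_det hn (hdet1 f hf)
  · intro h
    refine le_antisymm (Nat.sInf_le ⟨by norm_num, Set.Subset.antisymm ?_ ?_⟩) hm2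
    · rintro x ⟨l, hl, hS, rfl⟩
      exact ⟨2, by norm_num, l, hl, hS, rfl⟩
    · intro x hx
      by_cases h1 : lin x.val = 1
      · exact h x h1
      · exact mem_R2 hn (det_of_RInf hx) h1

end Pool.Agent.Results.MP_2a1f98_al.OffIdentity
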