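import Mathlib
import Pool.Agent.RevMaps.Lift
import Pool.Agent.INU.FIN
import Pool.Agent.INV5.FIN

namespace Pool.Agent.Results.MP_2a1f98_al.SharpLarge

open Pool.Agent.RevMaps

/-- `𝒢_n`: the formal maps of `(ℂⁿ, 0)` (`n`-tuples of power series in `n` variables over `ℂ`
without constant term) whose linear part is invertible. -/
def G (n : ℕ) : Type := {f : FMap n // (lin f).det ≠ 0}

/-- the underlying formal map -/
def G.val {n : ℕ} (f : G n) : FMap n := Subtype.val f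

theorem G.ext {n : ℕ} {f g : G n} (h : f.val = g.val) : f = g := Subtype.ext h

theorem G.isUnit {n : ℕ} (f : G n) : IsUnit f.val := (isUnit_iff_det _).mpr f.property

/-- composition -/
noncomputable instance (n : ℕ) : Mul (G n) :=
  ⟨fun f g => ⟨f.val * g.val, (isUnit_iff_det _).mp (f.isUnit.mul g.isUnit)⟩⟩

/-- identity -/
noncomputable instance (n : ℕ) : One (G n) := ⟨⟨1, (isUnit_iff_det _).mp isUnit_one⟩⟩

/-- compositional inverse -/
noncomputable instance (n : ℕ) : Inv (G n) :=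
  ⟨fun f => ⟨((f.isUnit.unit⁻¹ : (FMap n)ˣ) : FMap n),
    (isUnit_iff_det _).mp (f.isUnit.unit⁻¹ : (FMap n)ˣ).isUnit⟩⟩

theorem G.val_mul {n : ℕ} (f g : G n) : (f * g).val = f.val * g.val := rfl

theorem G.val_one {n : ℕ} : (1 : G n).val = 1 := rfl

/-- `𝒢_n` is a group under composition. -/
noncomputable instance (n : ℕ) : Group (G n) where
  mul_assoc f g h := G.ext (mul_assoc f.val g.val h.val)
  one_mul f := G.ext (one_mul f.val)
  mul_one f := G.ext (mul_one f.val)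
  inv_mul_cancel f := G.ext (f.isUnit.val_inv_mul)

/-- involutions (including the identity) -/
def I (n : ℕ) : Set (G n) := {f | f * f = 1}

/-- reversible elements -/
def R (n : ℕ) : Set (G n) := {f | ∃ h : G n, h * f * h⁻¹ = f⁻¹}

/-- `S^j`: compositions of `j` elements of `S` -/
def setPow {n : ℕ} (S : Set (G n)) (j : ℕ) : Set (G n) :=
  {x | ∃ l : List (G n), l.length = j ∧ (∀ s ∈ l, s ∈ S) ∧ l.prod = x}

/-- `R^∞`, the union of the `R^m`, `m ≥ 1` -/
def RInf (n : ℕ) : Set (G n) := {x | ∃ m, 1 ≤ m ∧ x ∈ setPow (R n) m}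

/-- the least `k ≥ 1` with `I^k = R^∞` -/
noncomputable def kmin (n : ℕ) : ℕ := sInf {k | 1 ≤ k ∧ setPow (I n) k = RInf n}

variable {n : ℕ}

theorem I_sub_R : I n ⊆ R n := by
  intro f hf
  refine ⟨1, ?_⟩
  rw [one_mul, inv_one, mul_one, eq_inv_iff_mul_eq_one]
  exact hf

theorem I_sq_sub_R {σ τ : G n} (hσ : σ ∈ I n) (hτ : τ ∈ I n) : σ * τ ∈ R n := by
  have h1 : σ * σ = 1 := hσ
  have h2 : τ * τ = 1 := hτ
  refine ⟨σ, ?_⟩
  rw [eq_inv_iff_mul_eq_one]
  have h3 : σ⁻¹ = σ := by rw [inv_eq_iff_mul_eq_one]; exact h1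
  rw [h3]
  calc σ * (σ * τ) * σ * (σ * τ) = (σ * σ) * (τ * (σ * σ) * τ) := by simp only [mul_assoc]
    _ = 1 := by rw [h1, mul_one, h2, mul_one]

theorem det_of_R {f : G n} (hf : f ∈ R n) : (lin f.val).det ^ 2 = 1 := by
  obtain ⟨h, hh⟩ := hf
  have h1 : h * f = f⁻¹ * h := by rw [← hh]; group
  have h2 : f * (h * f) = h := by rw [h1]; group
  have h3 : f.val * (h.val * f.val) = h.val := by
    rw [← G.val_mul, ← G.val_mul, h2]
  have h4 := congrArg (fun g => (lin g).det) h3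
  simp only [lin_mul, Matrix.det_mul] at h4
  have h5 : (lin h.val).det ≠ 0 := h.property
  have h6 : (lin h.val).det * ((lin f.val).det ^ 2) = (lin h.val).det * 1 := by
    rw [mul_one]
    linear_combination h4
  exact mul_left_cancel₀ h5 h6

theorem det_of_RInf {f : G n} (hf : f ∈ RInf n) : (lin f.val).det ^ 2 = 1 := by
  obtain ⟨m, _, l, _, hl, rfl⟩ := hf
  clear * - hl
  induction l with
  | nil =>
    rw [List.prod_nil, G.val_one, lin_one, Matrix.det_one, one_pow]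
  | cons a l ih =>
    rw [List.prod_cons, G.val_mul, lin_mul, Matrix.det_mul, mul_pow,
      det_of_R (hl a (by simp)), one_mul]
    exact ih (fun s hs => hl s (by simp [hs]))

/-- element of `𝒢_n` from an involutive formal map -/
def toUnit (τ : FMap n) (h : τ * τ = 1) : G n :=
  ⟨τ, (isUnit_iff_det _).mp ⟨⟨τ, τ, h, h⟩, rfl⟩⟩

theorem toUnit_mem (τ : FMap n) (h : τ * τ = 1) : toUnit τ h ∈ I n := by
  show toUnit τ h * toUnit τ h = 1
  apply G.ext
  exact h

theorem I5 (hn : 4 ≤ n) : setPow (I n) 5 = RInf n := by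
  apply Set.Subset.antisymm
  · rintro x ⟨l, hl, hS, rfl⟩
    exact ⟨5, by norm_num, l, hl, fun s hs => I_sub_R (hS s hs), rfl⟩
  · intro x hx
    obtain ⟨τ, hτ, hp⟩ := Pool.Agent.INU.five_involutions hn x.val (det_of_RInf hx)
    refine ⟨[toUnit (τ 0) (hτ 0), toUnit (τ 1) (hτ 1), toUnit (τ 2) (hτ 2), toUnit (τ 3) (hτ 3),
      toUnit (τ 4) (hτ 4)], rfl, ?_, ?_⟩
    · intro s hs
      simp only [List.mem_cons, List.not_mem_nil, or_false] at hs
      rcases hs with rfl | rfl | rfl | rfl | rfl <;> exact toUnit_mem _ _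
    · have h1 : [toUnit (τ 0) (hτ 0), toUnit (τ 1) (hτ 1), toUnit (τ 2) (hτ 2),
          toUnit (τ 3) (hτ 3), toUnit (τ 4) (hτ 4)].prod = toUnit (τ 0) (hτ 0) *
          toUnit (τ 1) (hτ 1) * toUnit (τ 2) (hτ 2) * toUnit (τ 3) (hτ 3) *
          toUnit (τ 4) (hτ 4) := by simp [mul_assoc]
      rw [h1]
      apply G.ext
      exact hp

theorem I_small (f : FMap n) (hn : 4 ≤ n) (hf : lin f = 1)
    (h4 : ¬ ∃ σ : Fin 4 → FMap n, (∀ k, σ k * σ k = 1) ∧ σ 0 * σ 1 * σ 2 * σ 3 = f)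
    (k : ℕ) (hk : k ≤ 4) : setPow (I n) k ≠ RInf n := by
  intro h
  have hunit : IsUnit f := (isUnit_iff_det _).mpr (by rw [hf]; simp)
  obtain ⟨u, hu⟩ : ∃ u : G n, u.val = f := ⟨⟨_, (isUnit_iff_det _).mp hunit⟩, rfl⟩
  have h1 : u ∈ RInf n := by
    rw [← I5 hn]
    obtain ⟨τ, hτ, hp⟩ := Pool.Agent.INU.five_involutions hn u.val (by rw [hu, hf]; simp)
    refine ⟨[toUnit (τ 0) (hτ 0), toUnit (τ 1) (hτ 1), toUnit (τ 2) (hτ 2), toUnit (τ 3) (hτ 3),
      toUnit (τ 4) (hτ 4)], rfl, ?_, ?_⟩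
    · intro s hs
      simp only [List.mem_cons, List.not_mem_nil, or_false] at hs
      rcases hs with rfl | rfl | rfl | rfl | rfl <;> exact toUnit_mem _ _
    · have h1 : [toUnit (τ 0) (hτ 0), toUnit (τ 1) (hτ 1), toUnit (τ 2) (hτ 2),
          toUnit (τ 3) (hτ 3), toUnit (τ 4) (hτ 4)].prod = toUnit (τ 0) (hτ 0) *
          toUnit (τ 1) (hτ 1) * toUnit (τ 2) (hτ 2) * toUnit (τ 3) (hτ 3) *
          toUnit (τ 4) (hτ 4) := by simp [mul_assoc]
      rw [h1]
      apply G.ext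
      exact hp
  rw [← h] at h1
  obtain ⟨l, hl, hS, hp⟩ := h1
  apply h4
  have h1I : (1 : G n) ∈ I n := by show (1 : G n) * 1 = 1; simp
  have hpad : ∃ a b c d : G n, a ∈ I n ∧ b ∈ I n ∧ c ∈ I n ∧ d ∈ I n ∧ a * b * c * d = u := by
    match l, hl with
    | [], _ => exact ⟨1, 1, 1, 1, h1I, h1I, h1I, h1I, by rw [← hp]; simp⟩
    | [a], _ => exact ⟨a, 1, 1, 1, hS a (by simp), h1I, h1I, h1I, by rw [← hp]; simp⟩
    | [a, b], _ => exact ⟨a, b, 1, 1, hS a (by simp), hS b (by simp), h1I, h1I,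
        by rw [← hp]; simp⟩
    | [a, b, c], _ => exact ⟨a, b, c, 1, hS a (by simp), hS b (by simp), hS c (by simp), h1I,
        by rw [← hp]; simp [mul_assoc]⟩
    | [a, b, c, d], _ => exact ⟨a, b, c, d, hS a (by simp), hS b (by simp), hS c (by simp),
        hS d (by simp), by rw [← hp]; simp [mul_assoc]⟩
    | a :: b :: c :: d :: e :: l', hl => simp at hl; omega
  obtain ⟨a, b, c, d, ha, hb, hc, hd, habcd⟩ := hpad
  refine ⟨![a.val, b.val, c.val, d.val], ?_, ?_⟩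
  · intro k
    fin_cases k
    · exact congrArg G.val ha
    · exact congrArg G.val hb
    · exact congrArg G.val hc
    · exact congrArg G.val hd
  · show a.val * b.val * c.val * d.val = f
    rw [← G.val_mul, ← G.val_mul, ← G.val_mul, habcd, hu]

/-- **Main theorem.** `k(n) = 5` for all sufficiently large `n`. -/
theorem result : ∃ N : ℕ, ∀ n, N ≤ n → kmin n = 5 := by
  obtain ⟨N, hN⟩ := Pool.Agent.INV5.not_four
  refine ⟨max N 4, fun n hn => ?_⟩
  have hn4 : 4 ≤ n := (le_max_right _ _).trans hn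
  obtain ⟨f, hf, h4⟩ := hN n ((le_max_left _ _).trans hn)
  have hI : 5 ∈ {k | 1 ≤ k ∧ setPow (I n) k = RInf n} := ⟨by norm_num, I5 hn4⟩
  apply le_antisymm (Nat.sInf_le hI)
  apply le_csInf ⟨5, hI⟩
  rintro k ⟨_, hk⟩
  by_contra hlt
  exact I_small f hn4 hf h4 k (by omega) hk

end Pool.Agent.Results.MP_2a1f98_al.SharpLarge
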