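import Mathlib
import Pool.Agent.RevMaps.TwoScalar
import Pool.Agent.RevMaps.Lower

namespace Pool.Agent.Results.MP_2a1f98_al.SharpTwo

open Pool.Agent.RevMaps

/-- `𝒢_n`: the formal maps of `(ℂⁿ, 0)` (`n`-tuples of power series in `n` variables over `ℂ`
without constant term) whose linear part is invertible. -/
def G (n : ℕ) : Type := {f : FMap n // (lin f).det ≠ 0}

/-- the underlying formal map -/
def G.val {n : ℕ} (f : G n) : FMap n := Subtype.val f

theorem G.ext {n : ℕ} {f g : G n} (h : f.val = g.val) : f = g := Subtype.ext h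

theorem G.isUnit {n : ℕ} (f : G n) : IsUnit f.val := (isUnit_iff_det _).mpr f.property

/-- composition -/
noncomputable instance (n : ℕ) : Mul (G n) :=
  ⟨fun f g => ⟨f.val * g.val, (isUnit_iff_det _).mp (f.isUnit.mul g.isUnit)⟩⟩

/-- identity -/
noncomputable instance (n : ℕ) : One (G n) := ⟨⟨1, (isUnit_iff_det _).mp isUnit_one⟩⟩

/-- compositional inverse -/
noncomputable instance (n : ℕ) : Inv (G n) :=
  ⟨fun f => ⟨((f.isUnit.unit⁻¹ : (FMap n)ˣ) : FMap n),
    (isUnit_iff_det _).mp (f.isUnit.unit⁻¹ : (FMap n)ˣ).isUnit⟩⟩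

theorem G.val_mul {n : ℕ} (f g : G n) : (f * g).val = f.val * g.val := rfl

theorem G.val_one {n : ℕ} : (1 : G n).val = 1 := rfl

/-- `𝒢_n` is a group under composition. -/
noncomputable instance (n : ℕ) : Group (G n) where
  mul_assoc f g h := G.ext (mul_assoc f.val g.val h.val)
  one_mul f := G.ext (one_mul f.val)
  mul_one f := G.ext (mul_one f.val)
  inv_mul_cancel f := G.ext (f.isUnit.val_inv_mul)

/-- involutions (including the identity) -/
def I (n : ℕ) : Set (G n) := {f | f * f = 1}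

/-- reversible elements -/
def R (n : ℕ) : Set (G n) := {f | ∃ h : G n, h * f * h⁻¹ = f⁻¹}

/-- `S^j`: compositions of `j` elements of `S` -/
def setPow {n : ℕ} (S : Set (G n)) (j : ℕ) : Set (G n) :=
  {x | ∃ l : List (G n), l.length = j ∧ (∀ s ∈ l, s ∈ S) ∧ l.prod = x}

/-- `R^∞`, the union of the `R^m`, `m ≥ 1` -/
def RInf (n : ℕ) : Set (G n) := {x | ∃ m, 1 ≤ m ∧ x ∈ setPow (R n) m}

/-- the least `k ≥ 1` with `I^k = R^∞` -/
noncomputable def kmin (n : ℕ) : ℕ := sInf {k | 1 ≤ k ∧ setPow (I n) k = RInf n}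

/-- the least `m ≥ 1` with `R^m = R^∞` -/
noncomputable def mmin (n : ℕ) : ℕ := sInf {m | 1 ≤ m ∧ setPow (R n) m = RInf n}

variable {n : ℕ}

theorem I_sub_R : I n ⊆ R n := by
  intro f hf
  refine ⟨1, ?_⟩
  rw [one_mul, inv_one, mul_one, eq_inv_iff_mul_eq_one]
  exact hf

theorem I_sq_sub_R {σ τ : G n} (hσ : σ ∈ I n) (hτ : τ ∈ I n) : σ * τ ∈ R n := by
  have h1 : σ * σ = 1 := hσ
  have h2 : τ * τ = 1 := hτ
  refine ⟨σ, ?_⟩
  rw [eq_inv_iff_mul_eq_one]
  have h3 : σ⁻¹ = σ := by rw [inv_eq_iff_mul_eq_one]; exact h1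
  rw [h3]
  calc σ * (σ * τ) * σ * (σ * τ) = (σ * σ) * (τ * (σ * σ) * τ) := by simp only [mul_assoc]
    _ = 1 := by rw [h1, mul_one, h2, mul_one]

theorem det_of_R {f : G n} (hf : f ∈ R n) : (lin f.val).det ^ 2 = 1 := by
  obtain ⟨h, hh⟩ := hf
  have h1 : h * f = f⁻¹ * h := by rw [← hh]; group
  have h2 : f * (h * f) = h := by rw [h1]; group
  have h3 : f.val * (h.val * f.val) = h.val := by
    rw [← G.val_mul, ← G.val_mul, h2]
  have h4 := congrArg (fun g => (lin g).det) h3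
  simp only [lin_mul, Matrix.det_mul] at h4
  have h5 : (lin h.val).det ≠ 0 := h.property
  have h6 : (lin h.val).det * ((lin f.val).det ^ 2) = (lin h.val).det * 1 := by
    rw [mul_one]
    linear_combination h4
  exact mul_left_cancel₀ h5 h6

theorem det_of_RInf {f : G n} (hf : f ∈ RInf n) : (lin f.val).det ^ 2 = 1 := by
  obtain ⟨m, _, l, _, hl, rfl⟩ := hf
  clear * - hl
  induction l with
  | nil =>
    rw [List.prod_nil, G.val_one, lin_one, Matrix.det_one, one_pow]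
  | cons a l ih =>
    rw [List.prod_cons, G.val_mul, lin_mul, Matrix.det_mul, mul_pow,
      det_of_R (hl a (by simp)), one_mul]
    exact ih (fun s hs => hl s (by simp [hs]))

/-- element of `𝒢_n` from an involutive formal map -/
def toUnit (τ : FMap n) (h : τ * τ = 1) : G n :=
  ⟨τ, (isUnit_iff_det _).mp ⟨⟨τ, τ, h, h⟩, rfl⟩⟩

theorem toUnit_mem (τ : FMap n) (h : τ * τ = 1) : toUnit τ h ∈ I n := by
  show toUnit τ h * toUnit τ h = 1
  apply G.ext
  exact h

theorem four {f : G 2} (hf : (lin f.val).det ^ 2 = 1) :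
    ∃ t : Fin 4 → G 2, (∀ k, t k ∈ I 2) ∧ t 0 * t 1 * t 2 * t 3 = f := by
  obtain ⟨τ, hτ, hp⟩ := four_involutions_two f.val hf
  refine ⟨fun k => toUnit (τ k) (hτ k), fun k => toUnit_mem _ _, ?_⟩
  apply G.ext
  exact hp

theorem I4_eq : setPow (I 2) 4 = RInf 2 := by
  apply Set.Subset.antisymm
  · rintro x ⟨l, hl, hS, rfl⟩
    exact ⟨4, by norm_num, l, hl, fun s hs => I_sub_R (hS s hs), rfl⟩
  · intro x hx
    obtain ⟨t, ht, hp⟩ := four (det_of_RInf hx)
    refine ⟨[t 0, t 1, t 2, t 3], rfl, ?_, ?_⟩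
    · intro s hs
      simp only [List.mem_cons, List.not_mem_nil, or_false] at hs
      rcases hs with rfl | rfl | rfl | rfl <;> exact ht _
    · rw [← hp]
      simp [mul_assoc]

theorem R2_eq : setPow (R 2) 2 = RInf 2 := by
  apply Set.Subset.antisymm
  · rintro x ⟨l, hl, hS, rfl⟩
    exact ⟨2, by norm_num, l, hl, hS, rfl⟩
  · intro x hx
    obtain ⟨t, ht, hp⟩ := four (det_of_RInf hx)
    refine ⟨[t 0 * t 1, t 2 * t 3], rfl, ?_, ?_⟩
    · intro s hs
      simp only [List.mem_cons, List.not_mem_nil, or_false] at hs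
      rcases hs with rfl | rfl
      · exact I_sq_sub_R (ht _) (ht _)
      · exact I_sq_sub_R (ht _) (ht _)
    · rw [← hp]
      simp [mul_assoc]

theorem mem_RInf_of_det {f : G 2} (hf : (lin f.val).det ^ 2 = 1) : f ∈ RInf 2 := by
  obtain ⟨t, ht, hp⟩ := four hf
  rw [← I4_eq]
  refine ⟨[t 0, t 1, t 2, t 3], rfl, ?_, ?_⟩
  · intro s hs
    simp only [List.mem_cons, List.not_mem_nil, or_false] at hs
    rcases hs with rfl | rfl | rfl | rfl <;> exact ht _
  · rw [← hp]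
    simp [mul_assoc]

theorem I_small (k : ℕ) (hk : k ≤ 3) : setPow (I 2) k ≠ RInf 2 := by
  intro h
  have hunit : IsUnit (f0 (0 : Fin 2)) :=
    isUnit_oneAdd (d := 3) (by norm_num) _ _ (OV_v0 _)
  obtain ⟨u, hu⟩ : ∃ u : G 2, u.val = f0 (0 : Fin 2) :=
    ⟨⟨_, (isUnit_iff_det _).mp hunit⟩, rfl⟩
  have hlin : lin u.val = 1 := by
    rw [hu]; exact lin_oneAdd (d := 3) (by norm_num) _ _ (OV_v0 _)
  have h1 : u ∈ RInf 2 := mem_RInf_of_det (by rw [hlin]; simp)
  rw [← h] at h1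
  obtain ⟨l, hl, hS, hp⟩ := h1
  apply not_three (0 : Fin 2)
  -- pad with identities
  have hpad : ∃ a b c : G 2, a ∈ I 2 ∧ b ∈ I 2 ∧ c ∈ I 2 ∧ a * b * c = u := by
    have h1I : (1 : G 2) ∈ I 2 := by show (1 : G 2) * 1 = 1; simp
    match l, hl with
    | [], _ => exact ⟨1, 1, 1, h1I, h1I, h1I, by rw [← hp]; simp⟩
    | [a], _ => exact ⟨a, 1, 1, hS a (by simp), h1I, h1I, by rw [← hp]; simp⟩
    | [a, b], _ => exact ⟨a, b, 1, hS a (by simp), hS b (by simp), h1I, by rw [← hp]; simp⟩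
    | [a, b, c], _ => exact ⟨a, b, c, hS a (by simp), hS b (by simp), hS c (by simp),
        by rw [← hp]; simp [mul_assoc]⟩
    | a :: b :: c :: d :: l', hl => simp at hl; omega
  obtain ⟨a, b, c, ha, hb, hc, habc⟩ := hpad
  refine ⟨![a.val, b.val, c.val], ?_, ?_⟩
  · intro k
    fin_cases k
    · exact congrArg G.val ha
    · exact congrArg G.val hb
    · exact congrArg G.val hc
  · show a.val * b.val * c.val = _
    rw [← G.val_mul, ← G.val_mul, habc, hu]

theorem R_small : setPow (R 2) 1 ≠ RInf 2 := by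
  intro h
  set d : Fin 2 → ℂ := ![2, -(1 / 2)] with hd
  have hd0 : ∀ i, d i ≠ 0 := by
    intro i
    fin_cases i <;> norm_num [hd]
  have hdet : (Matrix.diagonal d).det = -1 := by
    rw [Matrix.det_diagonal, Fin.prod_univ_two]
    norm_num [hd]
  have hunit : IsUnit (linMap (Matrix.diagonal d)) := by
    rw [isUnit_iff_det, lin_linMap, hdet]; norm_num
  obtain ⟨u, hu⟩ : ∃ u : G 2, u.val = linMap (Matrix.diagonal d) :=
    ⟨⟨_, (isUnit_iff_det _).mp hunit⟩, rfl⟩
  have h1 : u ∈ RInf 2 := mem_RInf_of_det (by rw [hu, lin_linMap, hdet]; norm_num)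
  rw [← h] at h1
  obtain ⟨l, hl, hS, hp⟩ := h1
  obtain ⟨a, rfl⟩ := List.length_eq_one_iff.mp hl
  have hau : a = u := by simpa using hp
  obtain ⟨g, hg⟩ := hS a (by simp)
  rw [hau] at hg
  have h2 : lin g.val * Matrix.diagonal d * lin (g⁻¹).val =
      Matrix.diagonal (fun i => (d i)⁻¹) := by
    have h3 : g.val * u.val * (g⁻¹).val = (u⁻¹).val := by
      rw [← G.val_mul, ← G.val_mul, hg]
    have h4 := congrArg lin h3
    rw [lin_mul, lin_mul, hu, lin_linMap] at h4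
    rw [h4]
    have h5 : lin (u⁻¹).val * Matrix.diagonal d = 1 := by
      rw [← lin_linMap (Matrix.diagonal d), ← hu, ← lin_mul, ← G.val_mul, inv_mul_cancel,
        G.val_one, lin_one]
    have h6 : Matrix.diagonal d * Matrix.diagonal (fun i => (d i)⁻¹) = 1 := by
      rw [Matrix.diagonal_mul_diagonal]
      rw [show (fun i => d i * (d i)⁻¹) = fun _ => (1 : ℂ) from
        funext fun i => mul_inv_cancel₀ (hd0 i)]
      simp
    calc lin (u⁻¹).val = lin (u⁻¹).val *
          (Matrix.diagonal d * Matrix.diagonal (fun i => (d i)⁻¹)) := by rw [h6, mul_one]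
      _ = _ := by rw [← mul_assoc, h5, one_mul]
  have h3 := congrArg Matrix.trace h2
  rw [Matrix.trace_mul_cycle, ← lin_mul, ← G.val_mul, inv_mul_cancel, G.val_one, lin_one,
    one_mul, Matrix.trace_diagonal, Matrix.trace_diagonal, Fin.sum_univ_two,
    Fin.sum_univ_two] at h3
  norm_num [hd] at h3

/-- **Main theorem.** `k(2) = 4` and `m(2) = 2`. -/
theorem result : kmin 2 = 4 ∧ mmin 2 = 2 := by
  have hI : 4 ∈ {k | 1 ≤ k ∧ setPow (I 2) k = RInf 2} := ⟨by norm_num, I4_eq⟩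
  have hR : 2 ∈ {m | 1 ≤ m ∧ setPow (R 2) m = RInf 2} := ⟨by norm_num, R2_eq⟩
  refine ⟨le_antisymm (Nat.sInf_le hI) ?_, le_antisymm (Nat.sInf_le hR) ?_⟩
  · apply le_csInf ⟨4, hI⟩
    rintro k ⟨_, hk⟩
    by_contra hlt
    exact I_small k (by omega) hk
  · apply le_csInf ⟨2, hR⟩
    rintro m ⟨hm1, hm⟩
    by_contra hlt
    have : m = 1 := by omega
    subst this
    exact R_small hm

end Pool.Agent.Results.MP_2a1f98_al.SharpTwo
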